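import Pool.Agent.L0h64.ZV.Mzl

/-!
# Multiple zeta values at Lyndon words and arbitrary complex numbers (helper64)

Partial result on Q1 of `MP_f3dc73_nt`. In the stuffle algebra the Lyndon words are free polynomial
generators (Hoffman). We show that the multiple zeta values of the Lyndon words whose first argument
is at least `N` and whose arguments are at most `κ N` behave like free generators, also over
arbitrary complex numbers `x_1, …, x_t`: at most `t` Lyndon words of the window are exceptional.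
-/

set_option autoImplicit false

namespace Pool.Agent.Results.MP_f3dc73_nt.LyndonWords

/-- `nested [a_1, …, a_r] m` is the sum of `1 / (n_1 ^ a_1 ⋯ n_r ^ a_r)` over the integers
`m > n_1 > ⋯ > n_r ≥ 1`. -/
noncomputable def nested : List ℕ → ℕ → ℝ
  | [], _ => 1
  | a :: l, m => ∑ n ∈ Finset.Ico 1 m, nested l n / (n : ℝ) ^ a

/-- `mzv [a_1, …, a_r]` is the sum of `1 / (n_1 ^ a_1 ⋯ n_r ^ a_r)` over all integers
`n_1 > ⋯ > n_r ≥ 1`. -/
noncomputable def mzv : List ℕ → ℝ
  | [] => 1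
  | a :: l => ∑' k : ℕ, nested l (k + 1) / ((k + 1 : ℕ) : ℝ) ^ a

/-- `Before u v`: `u` is smaller than `v` in the lexicographic order of words for which the larger
integer is the smaller letter. -/
def Before (u v : List ℕ) : Prop := List.Lex (fun a b : ℕ => b < a) u v

/-- Lyndon words: nonempty words smaller than all their proper nonempty suffixes. -/
def Lyndon (w : List ℕ) : Prop := w ≠ [] ∧ ∀ u v, w = u ++ v → u ≠ [] → v ≠ [] → Before w v

/-- The window: Lyndon words of length at most `p` with positive letters of size at most `κ N`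
whose first letter is at least `N`. -/
def Window (p : ℕ) (κ : ℝ) (N : ℕ) (w : List ℕ) : Prop :=
  Lyndon w ∧ w.length ≤ p ∧ (∀ a ∈ w, 1 ≤ a ∧ (a : ℝ) ≤ κ * N) ∧ ∀ a ∈ w.head?, N ≤ a

lemma nested_eq (l : List ℕ) : ∀ m, nested l m = Pool.Agent.Y760.ZG.hr l m := by
  induction l with
  | nil =>
    intro m
    rw [nested, Pool.Agent.Y760.ZG.hr_nil]
  | cons a l ih =>
    intro m
    rw [nested, Pool.Agent.Y760.ZG.hr_cons]
    exact Finset.sum_congr rfl fun n _ => by rw [ih]

lemma mzv_eq (w : List ℕ) : mzv w = Pool.Agent.Y760.ZG.mz w := by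
  rcases w with _ | ⟨a, l⟩
  · rw [mzv, Pool.Agent.Y760.ZG.mz]
  · rw [mzv, Pool.Agent.Y760.ZG.mz]
    exact tsum_congr fun k => by rw [nested_eq]

lemma before_ng {u v : List ℕ} (h : Before u v) :
    Pool.Agent.L0h64.ZV.ng u < Pool.Agent.L0h64.ZV.ng v := by
  unfold Before at h
  induction h with
  | nil => exact List.nil_lt_cons _ _
  | cons h ih => exact List.cons_lt_cons_iff.2 (Or.inr ⟨rfl, ih⟩)
  | rel h => exact List.cons_lt_cons_iff.2 (Or.inl (by simpa using h))

lemma lyndon_ng {w : List ℕ} (h : Lyndon w) :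
    Pool.Agent.L0h64.ZV.Lyn.IsLyn (Pool.Agent.L0h64.ZV.ng w) := by
  refine ⟨?_, fun u v h1 hu hv => ?_⟩
  · intro h1
    exact h.1 (List.map_eq_nil_iff.1 h1)
  · obtain ⟨u', v', rfl, rfl, rfl⟩ := List.map_eq_append_iff.1 h1
    exact before_ng (h.2 u' v' rfl (fun h2 => hu (by rw [h2]; rfl)) fun h2 => hv (by rw [h2]; rfl))

lemma window_Wn {p : ℕ} {κ : ℝ} {N : ℕ} {w : List ℕ} (h : Window p κ N w) :
    Pool.Agent.L0h64.ZV.Wn p κ N w :=
  ⟨lyndon_ng h.1, h.2.1, h.2.2.1, h.2.2.2⟩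

/-- For all natural numbers `p`, `n`, `t`, `D` and real numbers `κ`, `C` there are `B > 1` and `N0`
such that for all `N ≥ N0` and all complex numbers `x_1, …, x_t` there is a set `H` of at most `t`
words with: for all distinct Lyndon words `w_1, …, w_n` of the window outside `H`, all integer
polynomials `P(X_1, …, X_t, Y_1, …, Y_n)` of total degree at most `D` with coefficients of absolute
value at most `C ^ N` and all complex `y_1, …, y_n` of absolute value at most `1`,
`|P(x, y)| ≤ B ^ N |P(x, ζ(w_1), …, ζ(w_n))|`. -/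
theorem result (p n t D : ℕ) (κ C : ℝ) : ∃ B : ℝ, 1 < B ∧ ∃ N0 : ℕ, ∀ N : ℕ, N0 ≤ N →
    ∀ x : Fin t → ℂ, ∃ H : Finset (List ℕ), H.card ≤ t ∧ ∀ w : Fin n → List ℕ,
      Function.Injective w → (∀ i, Window p κ N (w i) ∧ w i ∉ H) →
      ∀ P : MvPolynomial (Fin t ⊕ Fin n) ℤ, P.totalDegree ≤ D →
      (∀ b, |((P.coeff b : ℤ) : ℝ)| ≤ C ^ N) → ∀ y : Fin n → ℂ, (∀ i, ‖y i‖ ≤ 1) →
      ‖MvPolynomial.aeval (Sum.elim x y) P‖ ≤
        B ^ N * ‖MvPolynomial.aeval (Sum.elim x fun i => ((mzv (w i) : ℝ) : ℂ)) P‖ := by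
  obtain ⟨B, hB, N0, h⟩ := Pool.Agent.L0h64.ZV.lynT p n t D κ C
  refine ⟨B, hB, N0, fun N hN x => ?_⟩
  obtain ⟨H, hH, h1⟩ := h N hN x
  refine ⟨H, hH, fun w hw hW P hP hc y hy => ?_⟩
  have h2 := h1 w hw (fun i => ⟨window_Wn (hW i).1, (hW i).2⟩) P hP hc y hy
  simp only [mzv_eq]
  exact h2

end Pool.Agent.Results.MP_f3dc73_nt.LyndonWords
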