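import Mathlib
import Pool.Agent.Results.MP_f3dc73_nt.LyndonWords
import Pool.Agent.L0h92.LM.Alg
import Pool.Agent.L0h92.NF.Liou

/-!
# Multiple zeta values at Lyndon words over fields of very well approximable numbers

In the stuffle algebra the Lyndon words are free polynomial generators. We consider the multiple zeta
values `ζ(w)` of the Lyndon words `w` of the window of `N`: their first argument is at least `N`, all
arguments are at most `κ N` and the length is at most `p`. Let `T k` be real numbers which tend to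
infinity (scales). A real number `y` is approximable on these scales if for some `A` and every `E`,
for all large `k`, it is within `exp (-E T k)` of a rational number of height at most `exp (A T k)`.
The approximable numbers form a field `L`; it contains `ℚ(ξ)` for a Liouville number `ξ` if the scales
are suitable, and for other scales it has the transcendence degree of the continuum.

Theorem: no nonzero polynomial `P` in `n` variables with real coefficients algebraic over `L` vanishes
at `(ζ(w_1), …, ζ(w_n))` for distinct Lyndon words of the window of `N`, `T k ≤ N ≤ K T k`, if `k` is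
large; the value of `P` is even larger than `B ^ (-N)`.

For arbitrary complex coefficients there may be exceptional words (`LyndonWords`); here there are none.
-/

set_option autoImplicit false

namespace Pool.Agent.Results.MP_f3dc73_nt.LiouvilleCoefficients

open Filter
open Pool.Agent.Results.MP_f3dc73_nt.LyndonWords (mzv Window)

/-- For some `A` and every `E`, for all large `k`, the number `y` is within `exp (-E (T k))` of a rational
number whose numerator and denominator are at most `exp (A (T k))` in absolute value. -/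
def Approximable (T : ℕ → ℝ) (y : ℝ) : Prop :=
  ∃ A : ℝ, ∀ E : ℝ, ∀ᶠ k in atTop, ∃ r : ℚ, (|r.num| : ℝ) ≤ Real.exp (A * T k) ∧
    (r.den : ℝ) ≤ Real.exp (A * T k) ∧ |y - r| ≤ Real.exp (-(E * T k))

/-- For every nonzero polynomial `P` in `n` variables whose coefficients are real numbers algebraic over
`L`, and all `p`, `κ`, `K`, there is `B > 1` such that for all large `k`, for all `N` between `T k` and
`K (T k)` and all distinct Lyndon words `w_1, …, w_n` of the window of `N`,
`|P(ζ(w_1), …, ζ(w_n))| > B ^ (-N)`. -/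
def FreeOver (T : ℕ → ℝ) (L : IntermediateField ℚ ℝ) : Prop :=
  ∀ (p n : ℕ) (κ K : ℝ) (P : MvPolynomial (Fin n) ℝ), P ≠ 0 → (∀ e, IsAlgebraic L (P.coeff e)) →
    ∃ B : ℝ, 1 < B ∧ ∀ᶠ k in atTop, ∀ N : ℕ, T k ≤ N → N ≤ K * T k →
      ∀ w : Fin n → List ℕ, Function.Injective w → (∀ i, Window p κ N (w i)) →
        (B ^ N)⁻¹ < |MvPolynomial.eval (fun i => mzv (w i)) P|

/-- the scales `2 ^ ((k + 2)!)` -/
noncomputable def T₀ (k : ℕ) : ℝ := 2 ^ (k + 2).factorial

theorem apr_iff (T : ℕ → ℝ) (y : ℝ) : Pool.Agent.L0h92.NF.Apr 1 T y ↔ Approximable T y := by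
  unfold Pool.Agent.L0h92.NF.Apr Approximable Pool.Agent.L0h92.NF.Near Pool.Agent.L0h92.NF.HtLe
  simp only [Real.rpow_one, and_assoc]

/-- the multiple zeta values of the window are bounded -/
theorem mzv_bound : ∃ M : ℝ, 1 ≤ M ∧ ∀ (p : ℕ) (κ : ℝ) (N : ℕ) (w : List ℕ), Window p κ N w →
    p + 2 ≤ N → |mzv w| ≤ M := by
  refine ⟨1 + |Pool.Agent.Y760.ZG.ze 2|, le_add_of_nonneg_right (abs_nonneg _),
    fun p κ N w hw hN => ?_⟩
  rw [LyndonWords.mzv_eq]
  exact Pool.Agent.L0h64.ZV.mz_le (LyndonWords.window_Wn hw).2 hN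

/-- the measure for integer polynomials, from `LyndonWords.result` without parameters -/
theorem measure (p n D : ℕ) (κ C : ℝ) : ∃ B : ℝ, 1 < B ∧ ∃ N0 : ℕ, ∀ N : ℕ, N0 ≤ N →
    ∀ w : Fin n → List ℕ, Function.Injective w → (∀ i, Window p κ N (w i)) →
      ∀ P : MvPolynomial (Fin n) ℤ, P.totalDegree ≤ D → (∀ b, |((P.coeff b : ℤ) : ℝ)| ≤ C ^ N) →
      ∀ y : Fin n → ℝ, (∀ i, |y i| ≤ 1) →
      |MvPolynomial.aeval y P| ≤ B ^ N * |MvPolynomial.aeval (fun i => mzv (w i)) P| := by
  obtain ⟨B, hB, N0, h⟩ := LyndonWords.result p n 0 D κ C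
  refine ⟨B, hB, N0, fun N hN w hw hW P hP hc y hy => ?_⟩
  obtain ⟨H, hH, h1⟩ := h N hN (fun i => i.elim0)
  have hH0 : H = ∅ := Finset.card_eq_zero.1 (Nat.le_zero.1 hH)
  have hcast : ∀ z : Fin n → ℝ, MvPolynomial.aeval (fun i => (z i : ℂ)) P =
      ((MvPolynomial.aeval z P : ℝ) : ℂ) := by
    intro z
    have h3 := MvPolynomial.aeval_algebraMap_apply (R := ℤ) ℂ z P
    exact h3
  have h2 := h1 w hw (fun i => ⟨hW i, by rw [hH0]; exact Finset.notMem_empty _⟩)
    (MvPolynomial.rename Sum.inr P) ((MvPolynomial.totalDegree_rename_le _ _).trans hP) (by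
      intro b
      by_cases hb : ∃ u, Finsupp.mapDomain (Sum.inr : Fin n → Fin 0 ⊕ Fin n) u = b
      · obtain ⟨u, rfl⟩ := hb
        rw [MvPolynomial.coeff_rename_mapDomain _ Sum.inr_injective]
        exact hc u
      · rw [MvPolynomial.coeff_rename_eq_zero]
        · have h4 := (abs_nonneg _).trans (hc 0)
          simpa using h4
        · intro u hu
          exact absurd ⟨u, hu⟩ hb)
    (fun i => (y i : ℂ)) (by
      intro i
      rw [Complex.norm_real, Real.norm_eq_abs]
      exact hy i)
  rw [MvPolynomial.aeval_rename, MvPolynomial.aeval_rename, Sum.elim_comp_inr,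
    Sum.elim_comp_inr, hcast, hcast (fun i => mzv (w i)), Complex.norm_real, Complex.norm_real,
    Real.norm_eq_abs, Real.norm_eq_abs] at h2
  exact h2

/-- fields of approximable numbers -/
theorem free {T : ℕ → ℝ} (hT : Tendsto T atTop atTop) (L : IntermediateField ℚ ℝ)
    (hL : ∀ y ∈ L, Pool.Agent.L0h92.NF.Apr 1 T y) : FreeOver T L := by
  intro p n κ K P hP hc
  obtain ⟨M, hM, hbound⟩ := mzv_bound
  obtain ⟨B, hB, h⟩ := Pool.Agent.L0h92.LM.main_alg (n := n)
    (V := fun N => {z | ∃ w : Fin n → List ℕ, Function.Injective w ∧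
      (∀ i, Window p κ N (w i)) ∧ z = fun i => mzv (w i)}) hM (by
      filter_upwards [eventually_ge_atTop (p + 2)] with N hN
      rintro z ⟨w, -, hW, rfl⟩ i
      exact hbound p κ N (w i) (hW i) hN) (by
      intro D C
      obtain ⟨B, hB, N0, h⟩ := measure p n D κ C
      refine ⟨B, hB, N0, fun N hN => ?_⟩
      rintro z ⟨w, hw, hW, rfl⟩ P hP hc y hy
      exact h N hN w hw hW P hP hc y hy) hT L hL P hP hc K
  refine ⟨B, hB, ?_⟩
  filter_upwards [h] with k hk N hN1 hN2 w hw hW
  exact hk N hN1 hN2 _ ⟨w, hw, hW, rfl⟩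

/-- Liouville numbers are approximable on suitable scales -/
theorem liouville {ξ : ℝ} (hξ : Liouville ξ) :
    ∃ T : ℕ → ℝ, Tendsto T atTop atTop ∧ Pool.Agent.L0h92.NF.Apr 1 T ξ := by
  refine Pool.Agent.L0h92.NF.veryWell_apr fun N => ?_
  obtain ⟨b, ⟨a, -, h⟩, hb⟩ := ((hξ.frequently_exists_num N).and_eventually
    (eventually_ge_atTop (N + 1))).exists
  refine ⟨a, b, by omega, h.le.trans (le_of_eq ?_)⟩
  have hb0 : (0 : ℝ) < b := by exact_mod_cast (by omega : 0 < b)
  rw [Real.rpow_one, Real.exp_neg, Real.exp_nat_mul, Real.exp_log hb0, one_div]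

/-- (1) For scales `T k → ∞` the approximable numbers form a field `L`, over which the multiple zeta
values of the Lyndon words of the windows of `N`, `T k ≤ N ≤ K (T k)`, are free in the sense of
`FreeOver`. (2) For every Liouville number `ξ` this holds for the field `ℚ(ξ)` on suitable scales. (3) For
`T k = 2 ^ ((k + 2)!)` the field in (1) has the transcendence degree of the continuum. -/
theorem result :
    (∀ T : ℕ → ℝ, Tendsto T atTop atTop → ∃ L : IntermediateField ℚ ℝ,
      (∀ y, y ∈ L ↔ Approximable T y) ∧ FreeOver T L) ∧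
    (∀ ξ : ℝ, Liouville ξ → ∃ T : ℕ → ℝ, Tendsto T atTop atTop ∧
      FreeOver T (IntermediateField.adjoin ℚ {ξ})) ∧
    (∃ L : IntermediateField ℚ ℝ, (∀ y, y ∈ L ↔ Approximable T₀ y) ∧
      Algebra.trdeg ℚ L = Cardinal.continuum ∧ FreeOver T₀ L) := by
  have hT₀ : T₀ = fun k => (Pool.Agent.L0h92.NF.eL k : ℝ) := by
    funext k
    unfold T₀ Pool.Agent.L0h92.NF.eL
    push_cast
    rfl
  have hT₀t : Tendsto T₀ atTop atTop := by
    rw [hT₀]
    exact Pool.Agent.L0h92.NF.tendsto_eL
  refine ⟨fun T hT => ⟨Pool.Agent.L0h92.NF.FF one_pos hT, fun y => apr_iff T y,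
    free hT _ fun y hy => hy⟩, fun ξ hξ => ?_, Pool.Agent.L0h92.NF.FF one_pos hT₀t,
    fun y => apr_iff T₀ y, Pool.Agent.L0h92.NF.trdeg_eq _ fun A => ?_, free hT₀t _ fun y hy => hy⟩
  · obtain ⟨T, hT, hξT⟩ := liouville hξ
    refine ⟨T, hT, free hT _ fun y hy => ?_⟩
    have h2 : IntermediateField.adjoin ℚ {ξ} ≤ Pool.Agent.L0h92.NF.FF one_pos hT := by
      rw [IntermediateField.adjoin_le_iff, Set.singleton_subset_iff]
      exact hξT
    exact h2 hy
  · show Pool.Agent.L0h92.NF.Apr 1 T₀ _
    rw [hT₀]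
    exact Pool.Agent.L0h92.NF.xiL_apr 1 A

end Pool.Agent.Results.MP_f3dc73_nt.LiouvilleCoefficients
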