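import Mathlib

/-!
# Missing multiple zeta values have positive proportion

`mzv n` is the multiple zeta value `∑_{0 < k_1 < ... < k_m} ∏ k_i ^ (- n_i)`, `Z w` the rational vector space spanned by
the multiple zeta values of weight `w`, as in the problem, `D` the sequence `1, 0, 1, 1, 1, 2, 2, 3, ...`
with `D (k + 3) = D (k + 1) + D k`, the dimensions of the graded algebra `ℚ[π²] ⊗ U𝓕^∨`.

`A` is the algebra `ℚ[π²] ⊗ U𝓕^∨` of the problem with its homogeneous parts `H w` and its product `mul`, and `Q1` is the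
statement of the problem. `PeriodMap` is the period map from `A`, which is isomorphic to the graded algebra of
motivic multiple zeta values, onto the multiple zeta values (Goncharov, Terasoma, Deligne-Goncharov, Brown);
the algebra is a polynomial algebra, so it has no zero divisors, and `dim H w = D w`.

**Theorem.** (1) If `dim Z_j < D_j`, then `dim Z_k ≤ D_k - D_(k - j) ≤ (1 - 2^(- j)) D_k` for all `k ≥ j + 2`.
(2) The following are equivalent: Q1; `dim Z_k = D_k` for all `k`; `dim Z_k = D_k` for infinitely many `k`; for every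
`ε > 0` there are infinitely many `k` with `dim Z_k ≥ (1 - ε) D_k`.

So the conjecture either holds, or the dimension is wrong in all weights from some weight on, and then a
positive proportion of the dimension is missing in all of these.
-/

set_option autoImplicit false

open Filter

namespace Pool.Agent.Results.MP_f3dc73_nt.PositiveProportion

/-- The multiple zeta value with exponents `n 0, ..., n (m - 1)`. -/
noncomputable def mzv {m : ℕ} (n : Fin m → ℕ) : ℝ :=
  ∑' k : {k : Fin m → ℕ // StrictMono k ∧ ∀ i, 0 < k i}, ∏ i, (((k.1 i : ℕ) : ℝ) ^ n i)⁻¹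

/-- The rational vector space spanned by the multiple zeta values of weight `w`. -/
noncomputable def Z (w : ℕ) : Submodule ℚ ℝ :=
  Submodule.span ℚ {x : ℝ | ∃ m : ℕ, ∃ n : Fin m → ℕ, (∀ i, 1 ≤ n i) ∧
    (∀ i : Fin m, (i : ℕ) + 1 = m → 2 ≤ n i) ∧ ∑ i, n i = w ∧ x = mzv n}

/-- The dimensions of the graded algebra `ℚ[π²] ⊗ U𝓕^∨`. -/
def D : ℕ → ℕ
  | 0 => 1
  | 1 => 0
  | 2 => 1
  | (k + 3) => D (k + 1) + D k

/-- The space with basis `π^(2 m) f_w`, `w` a word in the letters `f_3, f_5, ...` (the letter `f_(2a+3)` is `a`). -/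
abbrev A : Type := (ℕ × List ℕ) →₀ ℚ

/-- The homogeneous elements of degree `w` of the algebra `ℚ[π²] ⊗ U𝓕^∨`. -/
noncomputable def H (w : ℕ) : Submodule ℚ A :=
  Finsupp.supported ℚ ℚ {p : ℕ × List ℕ | 2 * p.1 + (p.2.map (fun a => 2 * a + 3)).sum = w}

/-- The letter at the place `i` of the word made from `u` at the places in `S` and `v` at the others. -/
def letter (u v : List ℕ) (S : Finset (Fin (u.length + v.length))) (i : Fin (u.length + v.length)) :
    ℕ :=
  if i ∈ S then u.getD (S.filter (fun j => j < i)).card 0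
  else v.getD (Sᶜ.filter (fun j => j < i)).card 0

/-- The product of two words: the sum over the sets `S` of places of the letters of `u`. -/
noncomputable def mulBasis (p q : ℕ × List ℕ) : A :=
  ∑ S ∈ Finset.powersetCard p.2.length Finset.univ,
    Finsupp.single (p.1 + q.1, List.ofFn (letter p.2 q.2 S)) 1

/-- The product of the algebra `ℚ[π²] ⊗ U𝓕^∨`. -/
noncomputable def mul (f g : A) : A :=
  f.sum fun p c => g.sum fun q d => (c * d) • mulBasis p q

/-- Isomorphisms of rational vector spaces in each weight. -/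
abbrev Isos : Type := ∀ w : ℕ, Z w ≃ₗ[ℚ] H w

/-- They send `1` to `1`. -/
def SendsOne (φ : Isos) : Prop := ∀ z : Z 0, (z : ℝ) = 1 → (φ 0 z).1 = Finsupp.single (0, []) 1

/-- They are multiplicative. -/
def IsMultiplicative (φ : Isos) : Prop :=
  ∀ (a b : ℕ) (x : Z a) (y : Z b) (z : Z (a + b)), (z : ℝ) = (x : ℝ) * (y : ℝ) →
    (φ (a + b) z).1 = mul (φ a x).1 (φ b y).1

/-- The statement Q1: the graded algebras of multiple zeta values and `ℚ[π²] ⊗ U𝓕^∨` are isomorphic. -/
def Q1 : Prop := ∃ φ : Isos, SendsOne φ ∧ IsMultiplicative φ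

/-- Known facts on the algebra `ℚ[π²] ⊗ U𝓕^∨`: dimensions, graded, no zero divisors. -/
structure AlgebraFacts : Prop where
  finite_H : ∀ w, FiniteDimensional ℚ (H w)
  finrank_H : ∀ w, Module.finrank ℚ (H w) = D w
  mul_mem : ∀ a b : ℕ, ∀ x ∈ H a, ∀ y ∈ H b, mul x y ∈ H (a + b)
  mul_ne_zero : ∀ a b : ℕ, ∀ x ∈ H a, ∀ y ∈ H b, x ≠ 0 → y ≠ 0 → mul x y ≠ 0

/-- The period map from the algebra `ℚ[π²] ⊗ U𝓕^∨` (isomorphic to the algebra of motivic multiple zeta
values) onto the multiple zeta values. -/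
structure PeriodMap where
  facts : AlgebraFacts
  /-- the period map -/
  per : A →ₗ[ℚ] ℝ
  per_one : per (Finsupp.single (0, []) 1) = 1
  map_per : ∀ w, (H w).map per = Z w
  per_mul' : ∀ a b : ℕ, ∀ x ∈ H a, ∀ y ∈ H b, per (mul x y) = per x * per y

theorem PeriodMap.finite_H (P : PeriodMap) (w : ℕ) : FiniteDimensional ℚ (H w) := P.facts.finite_H w

theorem PeriodMap.finrank_H (P : PeriodMap) (w : ℕ) : Module.finrank ℚ (H w) = D w :=
  P.facts.finrank_H w

theorem PeriodMap.mul_mem (P : PeriodMap) {a b : ℕ} {x y : A} (hx : x ∈ H a) (hy : y ∈ H b) :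
    mul x y ∈ H (a + b) := P.facts.mul_mem a b x hx y hy

theorem PeriodMap.mul_ne_zero (P : PeriodMap) {a b : ℕ} {x y : A} (hx : x ∈ H a) (hy : y ∈ H b)
    (hx0 : x ≠ 0) (hy0 : y ≠ 0) : mul x y ≠ 0 := P.facts.mul_ne_zero a b x hx y hy hx0 hy0

theorem PeriodMap.per_mul (P : PeriodMap) {a b : ℕ} {x y : A} (hx : x ∈ H a) (hy : y ∈ H b) :
    P.per (mul x y) = P.per x * P.per y := P.per_mul' a b x hx y hy

theorem mul_add' (f g g' : A) : mul f (g + g') = mul f g + mul f g' := by
  unfold mul
  rw [← Finsupp.sum_add]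
  refine Finsupp.sum_congr fun p _ => ?_
  rw [Finsupp.sum_add_index']
  · intro q; simp
  · intro q d d'; rw [mul_add, add_smul]

theorem mul_smul' (f : A) (r : ℚ) (g : A) : mul f (r • g) = r • mul f g := by
  unfold mul
  rw [Finsupp.smul_sum]
  refine Finsupp.sum_congr fun p _ => ?_
  rw [Finsupp.sum_smul_index' (by intro q; simp), Finsupp.smul_sum]
  refine Finsupp.sum_congr fun q _ => ?_
  rw [smul_smul, smul_eq_mul]
  congr 1
  ring

theorem D_mono_aux (k : ℕ) : D (k + 1) ≤ D (k + 2) ∧ D (k + 2) ≤ D (k + 3) ∧ D (k + 3) ≤ D (k + 4) := by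
  induction k with
  | zero => simp [D]
  | succ k ih =>
    obtain ⟨h1, h2, h3⟩ := ih
    refine ⟨h2, h3, ?_⟩
    have a1 : D (k + 1 + 3) = D (k + 2) + D (k + 1) := rfl
    have a2 : D (k + 1 + 4) = D (k + 3) + D (k + 2) := rfl
    omega

theorem D_le_two (k : ℕ) (hk : 2 ≤ k) : D (k + 1) ≤ 2 * D k := by
  obtain ⟨m, rfl⟩ := Nat.exists_eq_add_of_le hk
  rcases m with _ | m
  · simp [D]
  · have e : 2 + (m + 1) + 1 = (m + 1) + 3 := by ring
    have e' : 2 + (m + 1) = m + 3 := by ring
    rw [e, e', D]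
    have h := D_mono_aux m
    have h0 : D m ≤ D (m + 3) ∨ m = 0 := by
      rcases m with _ | m
      · right; rfl
      · left
        have h' := D_mono_aux m
        have h'' := D_mono_aux (m + 1)
        have : D (m + 1) ≤ D (m + 2) := h'.1
        have : D (m + 1 + 3) = D (m + 4) := rfl
        omega
    have h4 : D (m + 1 + 1) = D (m + 2) := rfl
    rcases h0 with h0 | h0
    · have : D (m + 1) ≤ D (m + 3) := by omega
      omega
    · subst h0; simp [D]

theorem D_pos (k : ℕ) (hk : 2 ≤ k) : 0 < D k := by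
  obtain ⟨m, rfl⟩ := Nat.exists_eq_add_of_le hk
  induction m with
  | zero => simp [D]
  | succ m ih =>
    have h := (D_mono_aux (m + 1)).1
    have h0 := ih (by omega)
    have e1 : 2 + m = m + 1 + 1 := by ring
    have e2 : 2 + (m + 1) = m + 1 + 2 := by ring
    rw [e1] at h0
    rw [e2]
    omega

theorem D_le_pow (k j : ℕ) (hk : 2 ≤ k) : D (k + j) ≤ 2 ^ j * D k := by
  induction j with
  | zero => simp
  | succ j ih =>
    have h1 := D_le_two (k + j) (by omega)
    calc D (k + (j + 1)) = D (k + j + 1) := rfl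
      _ ≤ 2 * D (k + j) := h1
      _ ≤ 2 * (2 ^ j * D k) := Nat.mul_le_mul_left _ ih
      _ = 2 ^ (j + 1) * D k := by ring

theorem finrank_split (P : PeriodMap) (w : ℕ) :
    Module.finrank ℚ (Z w) + Module.finrank ℚ (LinearMap.ker (P.per.domRestrict (H w))) = D w := by
  have := P.finite_H w
  have h1 := LinearMap.finrank_range_add_finrank_ker (P.per.domRestrict (H w))
  rw [P.finrank_H] at h1
  have h2 : LinearMap.range (P.per.domRestrict (H w)) = Z w := by
    rw [LinearMap.range_domRestrict, P.map_per]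
  rw [h2] at h1
  exact h1

theorem finrank_Z_le (P : PeriodMap) (w : ℕ) : Module.finrank ℚ (Z w) ≤ D w := by
  have := finrank_split P w
  omega

/-- a relation in weight `j` gives `D (k - j)` relations in weight `k` -/
theorem gap (P : PeriodMap) (j n : ℕ) (hj : Module.finrank ℚ (Z j) < D j) :
    Module.finrank ℚ (Z (j + n)) + D n ≤ D (j + n) := by
  have hfj := P.finite_H j
  have hfn := P.finite_H n
  have hfk := P.finite_H (j + n)
  have h1 := finrank_split P j
  have hker : LinearMap.ker (P.per.domRestrict (H j)) ≠ ⊥ := by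
    intro h
    rw [h, finrank_bot] at h1
    omega
  obtain ⟨x, hx, hx0⟩ := (Submodule.ne_bot_iff _).1 hker
  have hxA : (x : A) ≠ 0 := fun h => hx0 (Subtype.ext h)
  have hxp : P.per (x : A) = 0 := hx
  let T : H n →ₗ[ℚ] H (j + n) :=
    { toFun := fun y => ⟨mul x y, P.mul_mem x.2 y.2⟩
      map_add' := fun y y' => Subtype.ext (mul_add' _ _ _)
      map_smul' := fun r y => Subtype.ext (mul_smul' _ _ _) }
  have hinj : Function.Injective T := by
    rw [injective_iff_map_eq_zero]
    intro y hy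
    by_contra hne
    have hyA : (y : A) ≠ 0 := fun h => hne (Subtype.ext h)
    exact P.mul_ne_zero x.2 y.2 hxA hyA (congrArg Subtype.val hy)
  have hle : LinearMap.range T ≤ LinearMap.ker (P.per.domRestrict (H (j + n))) := by
    rintro _ ⟨y, rfl⟩
    rw [LinearMap.mem_ker]
    show P.per (mul x y) = 0
    rw [P.per_mul x.2 y.2, hxp, zero_mul]
  have h2 := finrank_split P (j + n)
  have h3 := Submodule.finrank_mono hle
  rw [LinearMap.finrank_range_of_inj hinj, P.finrank_H] at h3
  omega

theorem q1_of_finrank (P : PeriodMap) (h : ∀ w : ℕ, Module.finrank ℚ (Z w) = D w) : Q1 := by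
  have hinj : ∀ w, Function.Injective (P.per.domRestrict (H w)) := by
    intro w
    have := P.finite_H w
    have h1 := finrank_split P w
    rw [h w] at h1
    rw [← LinearMap.ker_eq_bot, ← Submodule.finrank_eq_zero (R := ℚ)]
    omega
  have hrange : ∀ w, LinearMap.range (P.per.domRestrict (H w)) = Z w := by
    intro w
    rw [LinearMap.range_domRestrict, P.map_per]
  let e : ∀ w, H w ≃ₗ[ℚ] Z w := fun w =>
    (LinearEquiv.ofInjective _ (hinj w)).trans (LinearEquiv.ofEq _ _ (hrange w))
  have he : ∀ w (x : H w), ((e w x : Z w) : ℝ) = P.per (x : A) := fun w x => rfl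
  have hes : ∀ w (z : Z w), P.per (((e w).symm z : H w) : A) = (z : ℝ) := by
    intro w z
    rw [← he, LinearEquiv.apply_symm_apply]
  have key : ∀ w (x y : H w), P.per (x : A) = P.per (y : A) → (x : A) = (y : A) := by
    intro w x y hxy
    exact congrArg Subtype.val (hinj w hxy)
  refine ⟨fun w => (e w).symm, ?_, ?_⟩
  · intro z hz
    have hone : Finsupp.single ((0, []) : ℕ × List ℕ) (1 : ℚ) ∈ H 0 := by
      unfold H
      rw [Finsupp.mem_supported]
      intro p hp
      have hp' : p = (0, []) := by simpa using Finsupp.support_single_subset hp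
      subst hp'
      simp
    refine key 0 _ ⟨_, hone⟩ ?_
    rw [hes, hz]
    exact P.per_one.symm
  · intro a b x y z hz
    refine key (a + b) _ ⟨_, P.mul_mem ((e a).symm x).2 ((e b).symm y).2⟩ ?_
    rw [hes, hz]
    show _ = P.per (mul _ _)
    rw [P.per_mul ((e a).symm x).2 ((e b).symm y).2, hes, hes]

/-- **Missing multiple zeta values have positive proportion.** -/
theorem result (P : PeriodMap) :
    -- 1. the gap
    (∀ j k : ℕ, Module.finrank ℚ (Z j) < D j → j + 2 ≤ k →
      Module.finrank ℚ (Z k) + D (k - j) ≤ D k ∧ 0 < D (k - j) ∧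
        2 ^ j * Module.finrank ℚ (Z k) ≤ (2 ^ j - 1) * D k) ∧
    -- 2. infinitely many weights, or asymptotic equality along a subsequence, are enough
    List.TFAE [
      Q1,
      ∀ w : ℕ, Module.finrank ℚ (Z w) = D w,
      ∃ᶠ w : ℕ in atTop, Module.finrank ℚ (Z w) = D w,
      ∀ ε : ℝ, 0 < ε → ∃ᶠ w : ℕ in atTop, (1 - ε) * D w ≤ Module.finrank ℚ (Z w)] := by
  have hgap : ∀ j k : ℕ, Module.finrank ℚ (Z j) < D j → j + 2 ≤ k →
      Module.finrank ℚ (Z k) + D (k - j) ≤ D k ∧ 0 < D (k - j) ∧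
        2 ^ j * Module.finrank ℚ (Z k) ≤ (2 ^ j - 1) * D k := by
    intro j k hj hk
    obtain ⟨n, rfl⟩ := Nat.exists_eq_add_of_le (show j ≤ k by omega)
    have h1 := gap P j n hj
    have h2 := D_pos n (by omega)
    have h3 := D_le_pow n j (by omega)
    rw [Nat.add_sub_cancel_left]
    refine ⟨h1, h2, ?_⟩
    have h4 : 2 ^ j * (Module.finrank ℚ (Z (j + n)) + D n) ≤ 2 ^ j * D (j + n) :=
      Nat.mul_le_mul_left _ h1
    rw [mul_add] at h4
    rw [Nat.sub_mul, one_mul]
    rw [add_comm n j] at h3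
    omega
  refine ⟨hgap, ?_⟩
  tfae_have 1 → 2 := by
    rintro ⟨φ, -⟩ w
    rw [← P.finrank_H]
    exact (φ w).finrank_eq
  tfae_have 2 → 1 := q1_of_finrank P
  tfae_have 2 → 3 := fun h => Frequently.of_forall h
  tfae_have 3 → 4 := by
    intro h ε hε
    refine h.mono fun w hw => ?_
    rw [hw]
    have : (0 : ℝ) ≤ D w := Nat.cast_nonneg _
    nlinarith
  tfae_have 4 → 2 := by
    intro h w
    by_contra hne
    have hlt : Module.finrank ℚ (Z w) < D w := lt_of_le_of_ne (finrank_Z_le P w) hne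
    have hε : (0 : ℝ) < 1 / 2 ^ (w + 1) := by positivity
    have h1 := h _ hε
    apply h1
    filter_upwards [eventually_ge_atTop (w + 2)] with k hk hle
    obtain ⟨h2, h3, h4⟩ := hgap w k hlt hk
    have hD : 0 < D k := by omega
    have hDr : (0 : ℝ) < D k := by exact_mod_cast hD
    have h5 : (2 ^ w : ℝ) * (Module.finrank ℚ (Z k) : ℝ) ≤ (2 ^ w - 1) * D k := by
      have h6 : ((2 ^ w * Module.finrank ℚ (Z k) : ℕ) : ℝ) ≤ (((2 ^ w - 1) * D k : ℕ) : ℝ) := by
        exact_mod_cast h4
      rw [Nat.cast_mul, Nat.cast_mul, Nat.cast_sub Nat.one_le_two_pow] at h6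
      push_cast at h6
      exact h6
    have hp : (0 : ℝ) < 2 ^ w := by positivity
    have h7 : (2 ^ w : ℝ) * ((1 - 1 / 2 ^ (w + 1)) * D k) ≤ (2 ^ w - 1) * D k :=
      (mul_le_mul_of_nonneg_left hle hp.le).trans h5
    have h8 : (2 ^ w : ℝ) * (1 - 1 / 2 ^ (w + 1)) = 2 ^ w - 1 / 2 := by
      rw [pow_succ]; field_simp
    rw [← mul_assoc, h8] at h7
    nlinarith
  tfae_finish

end Pool.Agent.Results.MP_f3dc73_nt.PositiveProportion
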